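import Mathlib
import Pool.Agent.Lib.MP_44a246_ntS.SH2c

/-!
Bounds for the minors of a family of derivations, bordered determinants.
-/

namespace Pool.Agent.Lib.MP_44a246_ntX

open Pool.Agent.Lib.MP_44a246_nt
open Pool.Agent.Lib.MP_44a246_ntL
open Pool.Agent.Lib.MP_e52354_nt
open WithZero Module

/-- The determinants formed by `m` derivations of the family (indices in `s`) and `m` integral
elements have a pole of order at most `m β w + ρ w` at `w`. -/
def MinorBound (κ : Type*) {L : Type*} [Field κ] [Field L] [Algebra κ L] {ι : Type*}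
    (D : ι → Derivation ℤ L L) (s : Set ι) (β ρ : Place κ L → ℕ) : Prop :=
  ∀ (w : Place κ L) (m : ℕ) (I : Fin m → ι) (c : Fin m → L), (∀ i, I i ∈ s) →
    (∀ j, w.1 (c j) ≤ 1) →
    w.1 (Matrix.det (Matrix.of fun i j => D (I i) (c j))) ≤ exp ((m * β w + ρ w : ℕ) : ℤ)

/-- the determinant of a matrix bordered by a row and a column -/
theorem det_border {L : Type*} [Field L] {m : ℕ} {p : L} (hp : p ≠ 0) (q u : Fin m → L)
    (A : Fin m → Fin m → L) :
    (Matrix.of (Fin.cons (Fin.cons p u : Fin (m + 1) → L)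
      (fun i => (Fin.cons (q i) (A i) : Fin (m + 1) → L)) :
        Fin (m + 1) → Fin (m + 1) → L)).det =
      p * (Matrix.of fun i j => A i j - q i / p * u j).det := by
  classical
  set N : Matrix (Fin (m + 1)) (Fin (m + 1)) L := Matrix.of (Fin.cons (Fin.cons p u)
    (fun i => (Fin.cons (q i) (A i) : Fin (m + 1) → L))) with hN
  set N' : Matrix (Fin (m + 1)) (Fin (m + 1)) L := Matrix.of (Fin.cons (Fin.cons p u)
    (fun i => (Fin.cons 0 (fun j => A i j - q i / p * u j) : Fin (m + 1) → L))) with hN'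
  have h1 : N.det = N'.det := by
    refine Matrix.det_eq_of_forall_row_eq_smul_add_const
      (Fin.cons 0 (fun i => q i / p) : Fin (m + 1) → L) 0 rfl ?_
    intro i j
    refine Fin.cases ?_ (fun i => ?_) i
    · simp [hN, hN']
    · refine Fin.cases ?_ (fun j => ?_) j
      · simp only [hN, hN', Matrix.of_apply, Fin.cons_succ, Fin.cons_zero]
        field_simp
        ring
      · simp only [hN, hN', Matrix.of_apply, Fin.cons_succ, Fin.cons_zero]
        ring
  rw [h1, Matrix.det_succ_column_zero, Fin.sum_univ_succ, Finset.sum_eq_zero]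
  · simp only [hN', Matrix.of_apply, Fin.cons_zero, Fin.val_zero, pow_zero, one_mul, add_zero]
    rfl
  · intro i _
    simp [hN']

/-- the bound of a determinant by the bounds of the entries of the first column and the minors -/
theorem det_column_le {L : Type*} [Field L] (v : Valuation L ℤᵐ⁰) {m : ℕ}
    (M : Matrix (Fin (m + 1)) (Fin (m + 1)) L) {a b : ℤᵐ⁰} (h1 : ∀ i, v (M i 0) ≤ a)
    (h2 : ∀ i : Fin (m + 1), v (M.submatrix i.succAbove Fin.succ).det ≤ b) :
    v M.det ≤ a * b := by
  rw [Matrix.det_succ_column_zero]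
  refine Valuation.map_sum_le v fun i _ => ?_
  rw [map_mul, map_mul, map_pow, Valuation.map_neg, map_one, one_pow, one_mul]
  exact mul_le_mul' (h1 i) (h2 i)

/-- bound for a determinant with given bounds for the rows -/
theorem det_le_prod_row {L : Type*} [Field L] (v : Valuation L ℤᵐ⁰) {ρ : Type*} [Fintype ρ]
    [DecidableEq ρ] (M : Matrix ρ ρ L) (τ : ρ → ℤᵐ⁰) (h : ∀ i j, v (M i j) ≤ τ i) :
    v M.det ≤ ∏ i, τ i := by
  rw [← Matrix.det_transpose]
  exact MP_44a246_ntS.det_le_prod v _ τ fun i j => h j i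

end Pool.Agent.Lib.MP_44a246_ntX
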