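import Mathlib
import Pool.Agent.Lib.MP_44a246_ntS.SH1

/-!
Improvement of the bounds for the poles of a derivation at one place.
-/

namespace Pool.Agent.Lib.MP_44a246_ntX

open Pool.Agent.Lib.MP_44a246_nt
open Pool.Agent.Lib.MP_44a246_ntL
open Pool.Agent.Lib.MP_e52354_nt
open WithZero Module

section

variable {κ L : Type*} [Field κ] [IsAlgClosed κ] [CharZero κ] [Field L] [Algebra κ L]

theorem val_natCast_eq_one (w : Place κ L) {m : ℕ} (hm : m ≠ 0) : w.1 (m : L) = 1 := by
  rw [← map_natCast (algebraMap κ L)]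
  exact w.2.2 _ (by exact_mod_cast hm)

omit [IsAlgClosed κ] [CharZero κ] in
theorem val_natCast_le_one (w : Place κ L) (m : ℕ) : w.1 (m : L) ≤ 1 := natCast_mem w.1.integer m

omit [IsAlgClosed κ] [CharZero κ] in
/-- an element which is not a unit has a nonzero logarithm -/
theorem exists_log_lt (w : Place κ L) {z : L} (hz : w.1 z < 1) (hz0 : z ≠ 0) :
    ∃ m : ℕ, 1 ≤ m ∧ w.1 z = exp (-(m : ℤ)) := by
  have h0 : w.1 z ≠ 0 := (Valuation.ne_zero_iff w.1).mpr hz0
  have h1 : log (w.1 z) < 0 := by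
    rw [← exp_lt_exp, exp_log h0, exp_zero]
    exact hz
  refine ⟨(- log (w.1 z)).toNat, by omega, ?_⟩
  rw [Int.toNat_of_nonneg (by omega), neg_neg, exp_log h0]

/-- one step of the improvement -/
theorem pole_step (h : IsFF κ L) (w : Place κ L) {D : Derivation ℤ L L} {a b M : ℤ}
    (hM : ∀ y, w.1 y ≤ 1 → w.1 (D y) ≤ exp M) {τ : L} (hτ1 : w.1 τ < 1) (hτ0 : τ ≠ 0)
    (hDτ : w.1 (D τ) ≤ w.1 τ * exp b) (hDc : ∀ c : κ, w.1 (D (algebraMap κ L c)) ≤ exp a)
    {y : L} (hy : w.1 y ≤ 1) : w.1 (D y) ≤ exp (max a (max (b - 1) (M - 1))) := by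
  obtain ⟨c, hc⟩ := h.place_residue w hy
  set z := y - algebraMap κ L c with hz
  have hyz : D y = D (algebraMap κ L c) + D z := by
    rw [hz, map_sub]
    ring
  rw [hyz]
  refine (Valuation.map_add _ _ _).trans (max_le ?_ ?_)
  · refine (hDc c).trans ?_
    rw [exp_le_exp]
    exact le_max_left _ _
  by_cases hz0 : z = 0
  · rw [hz0, map_zero, map_zero]
    exact zero_le
  obtain ⟨m, hm1, hm⟩ := exists_log_lt w hc hz0
  obtain ⟨e, he1, he⟩ := exists_log_lt w hτ1 hτ0
  -- `u = z ^ e / τ ^ m`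
  set u := z ^ e / τ ^ m with hu
  have hτm : τ ^ m ≠ 0 := pow_ne_zero _ hτ0
  have hze : z ^ e = τ ^ m * u := by
    rw [hu]
    field_simp
  have hwu : w.1 u = 1 := by
    rw [hu, map_div₀, map_pow, map_pow, he, hm, ← exp_nsmul, ← exp_nsmul, ← exp_sub, ← exp_zero]
    congr 1
    rw [nsmul_eq_mul, nsmul_eq_mul]
    ring
  have hwDu : w.1 (D u) ≤ exp M := hM u hwu.le
  -- the derivative of `z ^ e = τ ^ m * u`
  have h1 : (e : L) * z ^ e * D z * τ = z * (τ ^ m * (τ * D u + (m : L) * u * D τ)) := by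
    have h2 : D (z ^ e) = D (τ ^ m * u) := by rw [hze]
    rw [Derivation.leibniz_pow, Derivation.leibniz, Derivation.leibniz_pow] at h2
    simp only [nsmul_eq_mul, smul_eq_mul] at h2
    obtain ⟨e', rfl⟩ : ∃ e', e = e' + 1 := ⟨e - 1, by omega⟩
    obtain ⟨m', rfl⟩ : ∃ m', m = m' + 1 := ⟨m - 1, by omega⟩
    simp only [Nat.add_sub_cancel] at h2
    have h3 : ((e' + 1 : ℕ) : L) * z ^ (e' + 1) * D z * τ =
        z * τ * (((e' + 1 : ℕ) : L) * (z ^ e' * D z)) := by ring
    rw [h3, h2]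
    ring
  have h2 : (e : L) * u * D z * τ = z * (τ * D u + (m : L) * u * D τ) := by
    have h3 : τ ^ m * ((e : L) * u * D z * τ) = τ ^ m * (z * (τ * D u + (m : L) * u * D τ)) := by
      rw [hze] at h1
      linear_combination h1
    exact mul_left_cancel₀ hτm h3
  have h3 : w.1 (D z) * w.1 τ ≤ w.1 z * (w.1 τ * exp (max b M)) := by
    have h4 : w.1 ((e : L) * u * D z * τ) = w.1 (D z) * w.1 τ := by
      rw [map_mul, map_mul, map_mul, val_natCast_eq_one w (by omega : e ≠ 0), hwu, one_mul, one_mul]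
    rw [← h4, h2, map_mul]
    refine mul_le_mul' le_rfl ((Valuation.map_add _ _ _).trans (max_le ?_ ?_))
    · rw [map_mul]
      refine mul_le_mul' le_rfl (hwDu.trans ?_)
      rw [exp_le_exp]
      exact le_max_right _ _
    · rw [map_mul, map_mul, hwu, mul_one]
      calc w.1 (m : L) * w.1 (D τ) ≤ 1 * (w.1 τ * exp b) :=
            mul_le_mul' (val_natCast_le_one w m) hDτ
        _ = w.1 τ * exp b := one_mul _
        _ ≤ w.1 τ * exp (max b M) := by
          refine mul_le_mul' le_rfl ?_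
          rw [exp_le_exp]
          exact le_max_left _ _
  have hwτ : w.1 τ ≠ 0 := (Valuation.ne_zero_iff w.1).mpr hτ0
  have h4 : w.1 (D z) ≤ w.1 z * exp (max b M) := by
    have h5 : w.1 z * (w.1 τ * exp (max b M)) = w.1 z * exp (max b M) * w.1 τ := by
      rw [mul_assoc, mul_comm (w.1 τ)]
    rw [h5] at h3
    exact le_of_mul_le_mul_right h3 (zero_lt_iff.mpr hwτ)
  refine h4.trans ?_
  rw [hm, ← exp_add, exp_le_exp]
  have h5 : (1 : ℤ) ≤ m := by exact_mod_cast hm1
  refine le_trans ?_ (le_max_right _ _)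
  rcases le_total b M with h6 | h6
  · rw [max_eq_right h6]
    exact le_max_of_le_right (by linarith)
  · rw [max_eq_left h6]
    exact le_max_of_le_left (by linarith)

/-- **Improvement of the bound for the poles.** -/
theorem pole_improve (h : IsFF κ L) (w : Place κ L) {D : Derivation ℤ L L} {a b M : ℤ}
    (hM : ∀ y, w.1 y ≤ 1 → w.1 (D y) ≤ exp M) {τ : L} (hτ1 : w.1 τ < 1) (hτ0 : τ ≠ 0)
    (hDτ : w.1 (D τ) ≤ w.1 τ * exp b) (hDc : ∀ c : κ, w.1 (D (algebraMap κ L c)) ≤ exp a)
    {y : L} (hy : w.1 y ≤ 1) : w.1 (D y) ≤ exp (max a (b - 1)) := by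
  have key : ∀ (k : ℕ) (y : L), w.1 y ≤ 1 → w.1 (D y) ≤ exp (max (max a (b - 1)) (M - k)) := by
    intro k
    induction k with
    | zero =>
      intro y hy
      refine (hM y hy).trans ?_
      rw [exp_le_exp]
      simp
    | succ k ih =>
      intro y hy
      refine (pole_step h w ih hτ1 hτ0 hDτ hDc hy).trans ?_
      rw [exp_le_exp]
      push_cast
      refine max_le (le_max_of_le_left (le_max_left _ _)) (max_le (le_max_of_le_left
        (le_max_right _ _)) ?_)
      rcases le_total (max a (b - 1)) (M - k) with h1 | h1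
      · rw [max_eq_right h1]
        exact le_max_of_le_right (by linarith)
      · rw [max_eq_left h1]
        exact le_max_of_le_left (by linarith)
  refine (key (M - max a (b - 1)).toNat y hy).trans ?_
  rw [exp_le_exp]
  refine max_le le_rfl ?_
  have := Int.self_le_toNat (M - max a (b - 1))
  linarith

end

end Pool.Agent.Lib.MP_44a246_ntX
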