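import Mathlib
import Pool.Agent.Lib.MP_44a246_ntL.LMason
import Pool.Agent.Lib.MP_44a246_ntS.SB1
import Pool.Agent.Lib.MP_44a246_ntX.X0
import Pool.Agent.Lib.MP_44a246_ntX.XP1

/-!
A derivation over the constants; derivations adapted to a place; minors over a finite extension.
-/

namespace Pool.Agent.Lib.MP_44a246_ntX

open Pool.Agent.Lib.MP_44a246_nt
open Pool.Agent.Lib.MP_44a246_ntL
open Pool.Agent.Lib.MP_e52354_nt
open WithZero Module

/-- a nonzero derivation over the constants, with finitely many poles -/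
theorem exists_kder {κ K : Type*} [Field κ] [IsAlgClosed κ] [CharZero κ] [Field K] [Algebra κ K]
    (hK : IsFF κ K) : ∃ (D₀ : Derivation κ K K) (B : Place κ K → ℕ), D₀ ≠ 0 ∧
      PoleBound κ (D₀.restrictScalars ℤ) B := by
  obtain ⟨t, ht, hfin⟩ := id hK
  have halg : Algebra.IsAlgebraic (IntermediateField.adjoin κ {t}) K :=
    Algebra.IsAlgebraic.of_finite _ _
  obtain ⟨D₀, hD₀⟩ : ∃ D₀ : Derivation κ K K, D₀ t = 1 := by
    have h1 : AlgebraicIndependent κ (fun _ : Unit => t) :=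
      algebraicIndependent_unique_type_iff.mpr ht
    have h2 : IsTranscendenceBasis κ (fun _ : Unit => t) := by
      rw [h1.isTranscendenceBasis_iff_isAlgebraic, ← IntermediateField.isAlgebraic_adjoin_iff_top,
        Set.range_const]
      exact halg
    have h3 := h2.isAlgebraic
    obtain ⟨D, hD⟩ := exists_derivation h1 (fun _ => 1)
    exact ⟨D, hD ()⟩
  let D : Derivation ℤ K K := D₀.restrictScalars ℤ
  have hDκ : ∀ c : κ, D (algebraMap κ K c) = 0 := fun c => D₀.map_algebraMap c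
  have hDt : D t = 1 := hD₀
  obtain ⟨B, hBfin, hB⟩ := exists_poleBound ht hfin D (fun c => ⟨0, by rw [hDκ, map_zero]⟩)
    ⟨1, by rw [hDt, map_one]⟩
  refine ⟨D₀, B, ?_, hB⟩
  rintro rfl
  rw [Derivation.zero_apply] at hD₀
  exact zero_ne_one hD₀

/-- the derivation does not kill an element which is not a unit at a place -/
theorem kder_ne_zero {κ K : Type*} [Field κ] [IsAlgClosed κ] [CharZero κ] [Field K] [Algebra κ K]
    (hK : IsFF κ K) {D₀ : Derivation κ K K} (h0 : D₀ ≠ 0) (v : Place κ K) {τ : K}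
    (hτ : v.1 τ = exp (-1 : ℤ)) : D₀ τ ≠ 0 := by
  intro h1
  obtain ⟨s, hs⟩ : ∃ s, D₀ s ≠ 0 := by
    by_contra hcon
    push Not at hcon
    exact h0 (Derivation.ext fun s => hcon s)
  obtain ⟨c, hc⟩ := mason_const (L := K) hK D₀ hs h1
  rw [← hc] at hτ
  by_cases hc0 : c = 0
  · rw [hc0, map_zero, map_zero] at hτ
    exact exp_ne_zero hτ.symm
  · rw [v.2.2 c hc0, ← exp_zero, exp_inj] at hτ
    omega

theorem exp_neg_lt_one {e : ℕ} (he : 1 ≤ e) : (exp (-(e : ℤ)) : ℤᵐ⁰) < 1 := by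
  rw [← exp_zero, exp_lt_exp]
  omega

theorem one_le_exp_nat (m : ℕ) : (1 : ℤᵐ⁰) ≤ exp (m : ℤ) := by
  rw [← exp_zero, exp_le_exp]
  exact Int.natCast_nonneg _

section Over

variable {κ K L : Type*} [Field κ] [IsAlgClosed κ] [CharZero κ] [Field K] [Algebra κ K]
  [Field L] [Algebra κ L] [Algebra K L] [IsScalarTower κ K L] [FiniteDimensional K L]

theorem below_uniformizer (w : Place κ L) :
    ∃ τ : K, (below K w).1 τ = exp (-1 : ℤ) ∧
      w.1 (algebraMap K L τ) = exp (-(ramIdx K w.1 : ℤ)) := by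
  obtain ⟨τ, hτ⟩ := (below K w).2.1 (exp (-1 : ℤ))
  refine ⟨τ, hτ, ?_⟩
  rw [below_pow, hτ, ← exp_nsmul, nsmul_eq_mul]
  congr 1
  ring

/-- the derivation with respect to the uniformizer of `K` -/
theorem uder_le (hK : IsFF κ K) {D₀ : Derivation κ K K} {B₀ : Place κ K → ℕ} (h0 : D₀ ≠ 0)
    (hB₀ : PoleBound κ (D₀.restrictScalars ℤ) B₀) {D' : Derivation ℤ L L}
    (hD' : ∀ y, D' (algebraMap K L y) = algebraMap K L (D₀ y)) (w : Place κ L) {τ : K}
    (hτ : (below K w).1 τ = exp (-1 : ℤ))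
    (hwτ : w.1 (algebraMap K L τ) = exp (-(ramIdx K w.1 : ℤ))) {y : L} (hy : w.1 y ≤ 1) :
    w.1 ((algebraMap K L (D₀ τ))⁻¹ * D' y) ≤ exp (((ramIdx K w.1 - 1 : ℕ)) : ℤ) := by
  have hL : IsFF κ L := hK.of_finite
  have he := one_le_ramIdx (K := K) w.1 w.2.1
  have hDτ := kder_ne_zero hK h0 (below K w) hτ
  have hDτ' : algebraMap K L (D₀ τ) ≠ 0 := (_root_.map_ne_zero _).mpr hDτ
  set s := (algebraMap K L (D₀ τ))⁻¹ with hs
  have hs0 : s ≠ 0 := inv_ne_zero hDτ'
  have hws : w.1 s ≠ 0 := (Valuation.ne_zero_iff w.1).mpr hs0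
  set D : Derivation ℤ L L := s • D' with hD
  have hDy : ∀ y, D y = s * D' y := fun y => rfl
  have hM : ∀ y, w.1 y ≤ 1 → w.1 (D y) ≤ exp (log (w.1 s) +
      ((ramIdx K w.1 * B₀ (below K w) + (ramIdx K w.1 - 1) : ℕ) : ℤ)) := by
    intro y hy
    have h1 := polar_over (K := K) hL hD' hB₀ w hy
    rw [hDy, map_mul, exp_add, exp_log hws]
    exact mul_le_mul' le_rfl h1
  have hτ0 : algebraMap K L τ ≠ 0 := by
    intro h1
    rw [h1, map_zero] at hwτ
    exact exp_ne_zero hwτ.symm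
  have h1 := pole_improve hL w (a := 0) (b := ramIdx K w.1) hM (τ := algebraMap K L τ)
    (by rw [hwτ]; exact exp_neg_lt_one he) hτ0 (by
      rw [hDy, hD', hs, inv_mul_cancel₀ hDτ', map_one, hwτ, ← exp_add, neg_add_cancel, exp_zero])
    (fun c => by
      rw [hDy, IsScalarTower.algebraMap_apply κ K L, hD']
      have h2 : D₀ (algebraMap κ K c) = 0 := D₀.map_algebraMap c
      rw [h2, map_zero, mul_zero, map_zero]
      exact zero_le) hy
  rw [hDy] at h1
  refine h1.trans ?_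
  rw [exp_le_exp]
  omega

/-- the part of a derivation which kills the uniformizer of `K` -/
theorem tder_le (hK : IsFF κ K) {D₀ : Derivation κ K K} {B₀ : Place κ K → ℕ} (h0 : D₀ ≠ 0)
    (hB₀ : PoleBound κ (D₀.restrictScalars ℤ) B₀) {D₀' : Derivation ℤ L L}
    (hD₀' : ∀ y, D₀' (algebraMap K L y) = algebraMap K L (D₀ y)) {D : Derivation ℤ K K}
    {B : Place κ K → ℕ} (hB : PoleBound κ D B) {D' : Derivation ℤ L L}
    (hD' : ∀ y, D' (algebraMap K L y) = algebraMap K L (D y)) (w : Place κ L) {τ : K}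
    (hτ : (below K w).1 τ = exp (-1 : ℤ))
    (hwτ : w.1 (algebraMap K L τ) = exp (-(ramIdx K w.1 : ℤ))) {y : L} (hy : w.1 y ≤ 1) :
    w.1 (D' y - algebraMap K L (D τ) * ((algebraMap K L (D₀ τ))⁻¹ * D₀' y)) ≤
      exp ((ramIdx K w.1 * B (below K w) : ℕ) : ℤ) := by
  have hL : IsFF κ L := hK.of_finite
  have he := one_le_ramIdx (K := K) w.1 w.2.1
  have hDτ := kder_ne_zero hK h0 (below K w) hτ
  have hDτ' : algebraMap K L (D₀ τ) ≠ 0 := (_root_.map_ne_zero _).mpr hDτ
  set E : Derivation ℤ L L :=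
    D' - (algebraMap K L (D τ) * (algebraMap K L (D₀ τ))⁻¹) • D₀' with hE
  have hEy : ∀ y, E y = D' y - algebraMap K L (D τ) * ((algebraMap K L (D₀ τ))⁻¹ * D₀' y) := by
    intro y
    show D' y - (algebraMap K L (D τ) * (algebraMap K L (D₀ τ))⁻¹) * D₀' y = _
    ring
  have hDle : ∀ y : K, (below K w).1 y ≤ 1 → w.1 (algebraMap K L (D y)) ≤
      exp ((ramIdx K w.1 * B (below K w) : ℕ) : ℤ) := by
    intro y hy
    rw [below_pow]
    calc (below K w).1 (D y) ^ ramIdx K w.1 ≤ exp (B (below K w) : ℤ) ^ ramIdx K w.1 :=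
          pow_le_pow_left' (hB _ y hy) _
      _ = exp ((ramIdx K w.1 * B (below K w) : ℕ) : ℤ) := by
          rw [← exp_nsmul, nsmul_eq_mul]
          push_cast
          rfl
  have hτle : (below K w).1 τ ≤ 1 := by
    rw [hτ, ← exp_zero, exp_le_exp]
    omega
  have hM : ∀ y, w.1 y ≤ 1 → w.1 (E y) ≤
      exp ((ramIdx K w.1 * B (below K w) + (ramIdx K w.1 - 1) : ℕ) : ℤ) := by
    intro y hy
    rw [hEy]
    refine (Valuation.map_sub _ _ _).trans (max_le (polar_over (K := K) hL hD' hB w hy) ?_)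
    rw [map_mul, Nat.cast_add, exp_add]
    exact mul_le_mul' (hDle τ hτle) (uder_le hK h0 hB₀ hD₀' w hτ hwτ hy)
  have hτ0 : algebraMap K L τ ≠ 0 := by
    intro h1
    rw [h1, map_zero] at hwτ
    exact exp_ne_zero hwτ.symm
  have hEτ : E (algebraMap K L τ) = 0 := by
    rw [hEy, hD', hD₀', inv_mul_cancel₀ hDτ', mul_one, sub_self]
  have h1 := pole_improve hL w (a := ((ramIdx K w.1 * B (below K w) : ℕ) : ℤ)) (b := 0) hM
    (τ := algebraMap K L τ)
    (by rw [hwτ]; exact exp_neg_lt_one he) hτ0 (by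
      rw [hEτ, map_zero]
      exact zero_le) (fun c => by
      rw [hEy, IsScalarTower.algebraMap_apply κ K L, hD₀']
      have h2 : D₀ (algebraMap κ K c) = 0 := D₀.map_algebraMap c
      rw [h2, map_zero, mul_zero, mul_zero, sub_zero, hD']
      refine hDle _ ?_
      by_cases hc : c = 0
      · rw [hc, map_zero, map_zero]
        exact zero_le
      · exact ((below K w).2.2 c hc).le) hy
  rw [hEy] at h1
  refine h1.trans ?_
  rw [exp_le_exp]
  refine max_le le_rfl ?_
  have : (0 : ℤ) ≤ ((ramIdx K w.1 * B (below K w) : ℕ) : ℤ) := Int.natCast_nonneg _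
  omega

/-- **The minors of derivations over a finite extension.** -/
theorem minor_over (hK : IsFF κ K) {ι : Type*} {s : Set ι} {D : ι → Derivation ℤ K K}
    {B : Place κ K → ℕ} (hB : ∀ i ∈ s, PoleBound κ (D i) B) {D' : ι → Derivation ℤ L L}
    (hD' : ∀ i y, D' i (algebraMap K L y) = algebraMap K L (D i y)) :
    MinorBound κ D' s (fun w : Place κ L => ramIdx K w.1 * B (below K w))
      (fun w : Place κ L => ramIdx K w.1 - 1) := by
  classical
  intro w m I c hI hc
  have hcK : CharZero K := charZero_of_injective_algebraMap (algebraMap κ K).injective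
  obtain ⟨D₀, B₀, h0, hB₀⟩ := exists_kder hK
  obtain ⟨D₀', hD₀'⟩ := exists_extension (K := K) (L := L) (D₀.restrictScalars ℤ)
  have hD₀'' : ∀ y, D₀' (algebraMap K L y) = algebraMap K L (D₀ y) := hD₀'
  obtain ⟨τ, hτ, hwτ⟩ := below_uniformizer (K := K) w
  have hτle : (below K w).1 τ ≤ 1 := by
    rw [hτ, ← exp_zero, exp_le_exp]
    omega
  -- the bordered matrix
  set u : Fin m → L := fun j => (algebraMap K L (D₀ τ))⁻¹ * D₀' (c j) with hu
  set q : Fin m → L := fun i => - algebraMap K L (D (I i) τ) with hq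
  set A : Fin m → Fin m → L := fun i j => D' (I i) (c j) - algebraMap K L (D (I i) τ) * u j with hA
  have h1 : (Matrix.of fun i j => D' (I i) (c j)) =
      Matrix.of fun i j => A i j - q i / 1 * u j := by
    ext i j
    rw [Matrix.of_apply, Matrix.of_apply, hA, hq]
    ring
  have h2 := det_border (one_ne_zero (α := L)) q u A
  rw [one_mul] at h2
  rw [h1, ← h2]
  set r : Fin (m + 1) → ℤᵐ⁰ := Fin.cons (exp (((ramIdx K w.1 - 1 : ℕ)) : ℤ))
    (fun _ : Fin m => exp ((ramIdx K w.1 * B (below K w) : ℕ) : ℤ)) with hr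
  refine (det_le_prod_row w.1 _ r ?_).trans (le_of_eq ?_)
  · intro i j
    refine Fin.cases ?_ (fun i => ?_) i
    · refine Fin.cases ?_ (fun j => ?_) j
      · simp only [hr, Matrix.of_apply, Fin.cons_zero, map_one]
        exact one_le_exp_nat _
      · simp only [hr, Matrix.of_apply, Fin.cons_zero, Fin.cons_succ]
        exact uder_le hK h0 hB₀ hD₀'' w hτ hwτ (hc j)
    · refine Fin.cases ?_ (fun j => ?_) j
      · simp only [hr, Matrix.of_apply, Fin.cons_zero, Fin.cons_succ]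
        rw [hq, Valuation.map_neg, below_pow]
        calc (below K w).1 (D (I i) τ) ^ ramIdx K w.1 ≤
              exp (B (below K w) : ℤ) ^ ramIdx K w.1 :=
              pow_le_pow_left' (hB _ (hI i) _ τ hτle) _
          _ = exp ((ramIdx K w.1 * B (below K w) : ℕ) : ℤ) := by
              rw [← exp_nsmul, nsmul_eq_mul]
              push_cast
              rfl
      · simp only [hr, Matrix.of_apply, Fin.cons_succ]
        exact tder_le hK h0 hB₀ hD₀'' (hB _ (hI i)) (hD' _) w hτ hwτ (hc j)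
  · rw [hr, Fin.prod_univ_succ, Fin.cons_zero]
    simp only [Fin.cons_succ]
    rw [Finset.prod_const, Finset.card_univ, Fintype.card_fin, ← exp_nsmul, ← exp_add]
    congr 1
    rw [nsmul_eq_mul]
    push_cast
    ring

end Over

end Pool.Agent.Lib.MP_44a246_ntX
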