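import Mathlib
import Pool.Agent.Lib.MP_44a246_ntS.SJ4c
import Pool.Agent.Lib.MP_44a246_ntW.W20
import Pool.Agent.Lib.MP_44a246_ntX.XH2
import Pool.Agent.Lib.MP_44a246_ntX.XL2

/-!
# The plane curve divides `EE`
-/

namespace Pool.Agent.Lib.MP_44a246_ntX

open Pool.Agent.Lib.MP_44a246_nt
open Pool.Agent.Lib.MP_44a246_ntL
open Pool.Agent.Lib.MP_44a246_ntS
open Pool.Agent.Lib.MP_44a246_ntW
open Pool.Agent.Lib.MP_e52354_nt
open WithZero Polynomial

theorem EE_eval {κ L : Type*} [Field κ] [Field L] [Algebra κ L] {n d : ℕ}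
    (X : Dat κ (L := L) n d) {b : ℕ} {A : L[X][X]} (hA : Crv X b A) (i j : Fin (n + 1)) :
    (EE (X.E i) (X.E j) A).evalEval X.y₁ X.y = 0 := by
  have hi := X.B_eval hA i
  have hj := X.B_eval hA j
  -- apply `E j` to `hi`
  have h1 := congrArg (X.E j) hi
  rw [Derivation.leibniz, X.hEx, smul_zero, zero_add, smul_eq_mul, chain, chain, X.E_y₁, X.E_y,
    mul_zero, mul_zero, add_zero, add_zero] at h1
  have e0 : ∀ P Q : L[X][X], (P - Q).evalEval X.y₁ X.y = P.evalEval X.y₁ X.y -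
    Q.evalEval X.y₁ X.y := fun P Q => by rw [evalEval_sub]
  unfold EE
  rw [← cd_eq_cq, ← cd_eq_cq, ← cd_eq_cq, ← cd_eq_cq]
  change (derivative A * (derivative A * cd (X.E j) (X.B A i) + derivative (X.B A i) * X.B A j) -
    X.B A i * (derivative A * cd (X.E j) (derivative A) +
      derivative (derivative A) * X.B A j)).evalEval X.y₁ X.y = 0
  rw [evalEval_sub, evalEval_mul, evalEval_mul, evalEval_add, evalEval_add, evalEval_mul,
    evalEval_mul, evalEval_mul, evalEval_mul, ← hi, ← hj]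
  linear_combination (-(derivative A).evalEval X.y₁ X.y ^ 2) * h1

section

variable {κ L : Type*} [Field κ] [IsAlgClosed κ] [CharZero κ] [Field L] [Algebra κ L] {n d : ℕ}
  (X : Dat κ (L := L) n d) {b : ℕ} {A : L[X][X]} (hA : Crv X b A)

include hA in
theorem gh_EE_le (h : IsFF κ L) (i j : Fin (n + 1)) (h0 : EE (X.E i) (X.E j) A ≠ 0) :
    gh κ (EE (X.E i) (X.E j) A) ≤ 6 * gh κ A + 3 * X.Δ := by
  have hloc : ∀ w : Place κ L, log (gg w.1 (EE (X.E i) (X.E j) A)) ≤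
      6 * log (gg w.1 A) + 3 * (X.δ w : ℤ) := by
    intro w
    have h1 := gg_EE_le (X.hE i) (X.hE j) hA.one w
    have n1 : gg w.1 (EE (X.E i) (X.E j) A) ≠ 0 := (gg_eq_zero w.1).not.2 h0
    have n2 : gg w.1 A ≠ 0 := (gg_eq_zero w.1).not.2 hA.irr.ne_zero
    have n3 : gg w.1 A ^ 6 ≠ 0 := pow_ne_zero _ n2
    have n4 : (exp (X.δ w : ℤ) : ℤᵐ⁰) ^ 3 ≠ 0 := pow_ne_zero _ exp_ne_zero
    have h2 := (log_le_log n1 (mul_ne_zero n3 n4)).mpr h1
    rw [log_mul n3 n4, log_pow, log_pow, log_exp] at h2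
    refine h2.trans (le_of_eq ?_)
    rw [nsmul_eq_mul, nsmul_eq_mul]
    push_cast
    ring
  have s1 := gg_support h h0
  have s0 := gg_support h hA.irr.ne_zero
  have s2 : (Function.support fun w : Place κ L => 6 * log (gg w.1 A)).Finite := by
    refine s0.subset fun w hw h1 => hw ?_
    simp only at h1 ⊢
    rw [h1, mul_zero]
  have s3 : (Function.support fun w : Place κ L => 3 * (X.δ w : ℤ)).Finite := by
    refine X.hδ.subset fun w hw h1 => hw ?_
    simp only at h1 ⊢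
    rw [h1, Nat.cast_zero, mul_zero]
  have hmain := finsum_mono s1 ((s2.union s3).subset (Function.support_add _ _)) hloc
  rw [finsum_add_distrib s2 s3] at hmain
  have e2 : ∑ᶠ w : Place κ L, 6 * log (gg w.1 A) = 6 * gh κ A := (mul_finsum _ _).symm
  have e3 : ∑ᶠ w : Place κ L, 3 * (X.δ w : ℤ) = 3 * X.Δ := (mul_finsum _ _).symm
  rw [e2, e3] at hmain
  exact hmain

include hA in
/-- **The curve divides `EE`.** -/
theorem dvd_EE (h : IsFF κ L) (hh : 9 * (b : ℤ) * gh κ A + 3 * b * X.Δ < height κ X.x)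
    (i j : Fin (n + 1)) : A ∣ EE (X.E i) (X.E j) A := by
  by_cases h0 : EE (X.E i) (X.E j) A = 0
  · rw [h0]
    exact dvd_zero A
  refine bez h hA.irr hA.deg hA.zero (EE_eval X hA i j) ?_
  rw [X.height_y₁]
  have hα : 0 ≤ gh κ A := gh_nonneg h hA.irr.ne_zero
  have hE := gh_EE_le X hA h i j h0
  have hE0 : 0 ≤ gh κ (EE (X.E i) (X.E j) A) := gh_nonneg h h0
  have hd1 : ((EE (X.E i) (X.E j) A).natDegree : ℤ) ≤ 3 * b := by
    exact_mod_cast natDegree_EE_le (X.E i) (X.E j) hA.box.1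
  have hd2 : (A.natDegree : ℤ) ≤ b := by exact_mod_cast hA.box.1
  have h1 := mul_le_mul_of_nonneg_right hd1 hα
  have h2 := mul_le_mul_of_nonneg_right hd2 hE0
  have h3 : (b : ℤ) * gh κ (EE (X.E i) (X.E j) A) ≤ b * (6 * gh κ A + 3 * X.Δ) :=
    mul_le_mul_of_nonneg_left hE (by positivity)
  linarith

end

end Pool.Agent.Lib.MP_44a246_ntX
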