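import Mathlib
import Pool.Agent.Lib.MP_44a246_ntS.SJ2b
import Pool.Agent.Lib.MP_44a246_ntX.XH2c
import Pool.Agent.Lib.MP_44a246_ntX.XL2b

/-!
# The height of the space spanned by the rows of the coefficients, with one ramification term
-/

namespace Pool.Agent.Lib.MP_44a246_ntX

open Pool.Agent.Lib.MP_44a246_nt
open Pool.Agent.Lib.MP_44a246_ntL
open Pool.Agent.Lib.MP_44a246_ntS
open Pool.Agent.Lib.MP_e52354_nt
open WithZero Module Polynomial

private theorem exp_sum {ι : Type*} (s : Finset ι) (f : ι → ℤ) :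
    (exp (∑ i ∈ s, f i) : ℤᵐ⁰) = ∏ i ∈ s, exp (f i) := by
  classical
  induction s using Finset.induction_on with
  | empty => rw [Finset.sum_empty, Finset.prod_empty, exp_zero]
  | insert j s hj ih => rw [Finset.sum_insert hj, Finset.prod_insert hj, exp_add, ih]

section

variable {κ L : Type*} [Field κ] [IsAlgClosed κ] [CharZero κ] [Field L] [Algebra κ L] {n d : ℕ}
  (X : Dat κ (L := L) n d)

/-- **The height of a space spanned by rows.** The local bounds are at most `g w`, except for one
of the elements, for which the bound is `g' w`. -/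
theorem ht_span_row_le (h : IsFF κ L) {γ : Type*} [Fintype γ] (c : Option γ → L)
    {g g' : Place κ L → ℤ} (hg : (Function.support g).Finite) (hg' : (Function.support g').Finite)
    (hg0 : ∀ w, 0 ≤ g w) (hg0' : ∀ w, 0 ≤ g' w) (h1 : ∀ t w, w.1 (c (some t)) ≤ exp (g w))
    (h2 : ∀ w, w.1 (c none) ≤ exp (g' w)) {V : Submodule L (M3 d → L)}
    (hV : V = Submodule.span L (Set.range fun t => X.row (c t))) :
    ht κ V ≤ finrank L V * (2 * ∑ᶠ w, g w + X.Δ) + 2 * ∑ᶠ w, g' w + X.R := by
  classical
  obtain ⟨τ, σ', hσ', hsp, hli⟩ := exists_linearIndependent' L (fun t => X.row (c t))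
  have : Finite τ := Finite.of_injective σ' hσ'
  have : Fintype τ := Fintype.ofFinite τ
  set e := Fintype.card τ with he
  set σ : Fin e → Option γ := fun i => σ' ((Fintype.equivFin τ).symm i) with hσ
  have hσi : Function.Injective σ := hσ'.comp (Fintype.equivFin τ).symm.injective
  set a : Fin e → M3 d → L := fun i => X.row (c (σ i)) with ha
  have hai : LinearIndependent L a := hli.comp _ (Fintype.equivFin τ).symm.injective
  have has : Submodule.span L (Set.range a) = V := by
    have h1 : Set.range a = Set.range ((fun t => X.row (c t)) ∘ σ') := by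
      ext y
      constructor
      · rintro ⟨i, rfl⟩
        exact ⟨_, rfl⟩
      · rintro ⟨t, rfl⟩
        refine ⟨Fintype.equivFin τ t, ?_⟩
        simp [ha, hσ]
    rw [h1, hsp, hV]
  have hev : finrank L V = e := by
    have h1 := finrank_span_eq_card hai
    rw [has, Fintype.card_fin] at h1
    exact h1
  -- the local bounds
  let G : Place κ L → Option γ → ℤ := fun w t => t.elim (g' w) fun _ => g w
  have hG0 : ∀ w t, 0 ≤ G w t := by
    intro w t
    cases t with
    | none => exact hg0' w
    | some t => exact hg0 w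
  have hGc : ∀ w t, w.1 (c t) ≤ exp (G w t) := by
    intro w t
    cases t with
    | none => exact h2 w
    | some t => exact h1 t w
  have hGsum : ∀ w, ∑ i, 2 * G w (σ i) ≤ e * (2 * g w) + 2 * g' w := by
    intro w
    have h3 : ∀ i, 2 * G w (σ i) ≤ 2 * g w + if σ i = none then 2 * g' w else 0 := by
      intro i
      rcases hi : σ i with _ | t
      · simp only [G, Option.elim_none, if_true]
        have := hg0 w
        linarith
      · simp only [G, Option.elim_some, reduceCtorEq, if_false, add_zero]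
        exact le_rfl
    refine (Finset.sum_le_sum fun i _ => h3 i).trans ?_
    rw [Finset.sum_add_distrib, Finset.sum_const, Finset.card_univ, Fintype.card_fin, nsmul_eq_mul]
    have h4 : ∑ i : Fin e, (if σ i = none then 2 * g' w else 0) ≤ 2 * g' w := by
      rw [← Finset.sum_filter, Finset.sum_const, nsmul_eq_mul]
      have h5 : (Finset.univ.filter fun i : Fin e => σ i = none).card ≤ 1 := by
        rw [Finset.card_le_one]
        intro i hi j hj
        rw [Finset.mem_filter] at hi hj
        exact hσi (hi.2.trans hj.2.symm)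
      have h6 : (((Finset.univ.filter fun i : Fin e => σ i = none).card : ℕ) : ℤ) ≤ 1 := by
        exact_mod_cast h5
      have h7 := mul_le_mul_of_nonneg_right h6 (show 0 ≤ 2 * g' w by have := hg0' w; linarith)
      linarith
    linarith
  have hloc : ∀ w : Place κ L, log (pl w.1 a) ≤
      (e : ℤ) * (2 * g w) + 2 * g' w + ((e : ℤ) * (X.δ w : ℤ) + (X.ρ w : ℤ)) := by
    intro w
    have h3 := X.pl_rows_gen w (fun i => c (σ i)) (fun i => exp (G w (σ i))) (fun i => by
      rw [← exp_zero, exp_le_exp]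
      exact hG0 w _) (fun i => hGc w _)
    have n1 : pl w.1 a ≠ 0 := pl_ne_zero w.1 hai
    have h4 : ∏ i, (exp (G w (σ i)) : ℤᵐ⁰) ^ 2 = exp (∑ i, 2 * G w (σ i)) := by
      rw [exp_sum]
      refine Finset.prod_congr rfl fun i _ => ?_
      rw [← exp_nsmul, nsmul_eq_mul]
      rfl
    rw [h4, ← exp_add] at h3
    rw [log_le_iff_le_exp n1]
    refine h3.trans ?_
    rw [exp_le_exp]
    have := hGsum w
    push_cast
    linarith
  have s1 := pl_support h hai
  have s2 : (Function.support fun w : Place κ L => (e : ℤ) * (2 * g w)).Finite := by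
    refine hg.subset fun w hw h1 => hw ?_
    simp only at h1 ⊢
    rw [h1, mul_zero, mul_zero]
  have s3 : (Function.support fun w : Place κ L => 2 * g' w).Finite := by
    refine hg'.subset fun w hw h1 => hw ?_
    simp only at h1 ⊢
    rw [h1, mul_zero]
  have s4 : (Function.support fun w : Place κ L => (e : ℤ) * (X.δ w : ℤ)).Finite := by
    refine X.hδ.subset fun w hw h1 => hw ?_
    simp only at h1 ⊢
    rw [h1, Nat.cast_zero, mul_zero]
  have s5 : (Function.support fun w : Place κ L => (X.ρ w : ℤ)).Finite := by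
    refine X.hρ.subset fun w hw h1 => hw ?_
    simp only at h1 ⊢
    rw [h1, Nat.cast_zero]
  have s23 := (s2.union s3).subset (Function.support_add _ _)
  have s45 := (s4.union s5).subset (Function.support_add _ _)
  have hmain := finsum_mono s1 ((s23.union s45).subset (Function.support_add _ _)) hloc
  rw [finsum_add_distrib s23 s45, finsum_add_distrib s2 s3, finsum_add_distrib s4 s5] at hmain
  have e1 : ∑ᶠ w : Place κ L, log (pl w.1 a) = ht κ V := by
    rw [← ht_span h hai, has]
  have e2 : ∑ᶠ w : Place κ L, (e : ℤ) * (2 * g w) = e * (2 * ∑ᶠ w, g w) := by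
    rw [← mul_finsum, ← mul_finsum]
  have e3 : ∑ᶠ w : Place κ L, 2 * g' w = 2 * ∑ᶠ w, g' w := (mul_finsum _ _).symm
  have e4 : ∑ᶠ w : Place κ L, (e : ℤ) * (X.δ w : ℤ) = (e : ℤ) * X.Δ := (mul_finsum _ _).symm
  have e5 : ∑ᶠ w : Place κ L, (X.ρ w : ℤ) = X.R := rfl
  rw [e1, e2, e3, e4, e5] at hmain
  rw [hev]
  linarith

variable {b : ℕ} {A : L[X][X]} (hA : Crv X b A)

include hA in
/-- **The height of the space of the rows in terms of its dimension.** -/
theorem ht_V_le (h : IsFF κ L) {N : ℕ} (hN : finrank L (X.V b A) ≤ N) : ht κ (X.V b A) ≤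
    N * (4 * gh κ A + 3 * X.Δ) + 2 * height κ X.x + X.R := by
  have hA0 : A ≠ 0 := hA.irr.ne_zero
  have hα : 0 ≤ gh κ A := gh_nonneg h hA0
  have hΔ := X.Δ_nonneg
  have hH : 0 ≤ height κ X.x := h.height_nonneg X.x_ne_zero
  have s0 := gg_support h hA0
  have s1 : (Function.support fun w : Place κ L => 2 * log (gg w.1 A)).Finite := by
    refine s0.subset fun w hw h1 => hw ?_
    simp only at h1 ⊢
    rw [h1, mul_zero]
  have s2 : (Function.support fun w : Place κ L => (X.δ w : ℤ)).Finite := by
    refine X.hδ.subset fun w hw h1 => hw ?_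
    simp only at h1 ⊢
    rw [h1, Nat.cast_zero]
  have hlog : ∀ w : Place κ L, 0 ≤ log (gg w.1 A) := by
    intro w
    rw [le_log_iff_exp_le ((gg_eq_zero w.1).not.2 hA0), exp_zero]
    exact one_le_gg hA.one w
  have hlogx : ∀ w : Place κ L, 0 ≤ log (vmax w.1 X.x) := by
    intro w
    have hv : vmax w.1 X.x ≠ 0 := by
      rw [Ne, vmax_eq_zero_iff]
      exact X.x_ne_zero
    rw [le_log_iff_exp_le hv, exp_zero]
    exact X.one_le_vmax w
  have hV : X.V b A = Submodule.span L (Set.range fun t : Option (Option (Fin (n + 1)) ×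
      Fin (b + 1) × Fin (b + 1)) => X.row (t.elim X.y₁
        fun t => ((t.1.elim A (X.B A)).coeff t.2.1).coeff t.2.2)) := by
    unfold Dat.V
    rw [Submodule.span_range_eq_iSup, iSup_option, sup_comm, Finset.sup_univ_eq_iSup]
    rfl
  have hmain := ht_span_row_le X h (fun t : Option (Option (Fin (n + 1)) ×
      Fin (b + 1) × Fin (b + 1)) => t.elim X.y₁
        fun t => ((t.1.elim A (X.B A)).coeff t.2.1).coeff t.2.2)
    (g := fun w => 2 * log (gg w.1 A) + (X.δ w : ℤ)) (g' := fun w => log (vmax w.1 X.x))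
    ((s1.union s2).subset (Function.support_add _ _)) (h.vmax_support X.x_ne_zero)
    (fun w => by have := hlog w; positivity) hlogx (fun t w => ?_) (fun w => ?_) hV
  · have e1 : ∑ᶠ w : Place κ L, (2 * log (gg w.1 A) + (X.δ w : ℤ)) = 2 * gh κ A + X.Δ := by
      rw [finsum_add_distrib s1 s2, ← mul_finsum]
      rfl
    have e2 : ∑ᶠ w : Place κ L, log (vmax w.1 X.x) = height κ X.x := rfl
    rw [e1, e2] at hmain
    have h1 : (finrank L (X.V b A) : ℤ) ≤ N := by exact_mod_cast hN
    have h2 := mul_le_mul_of_nonneg_right h1 (show 0 ≤ 4 * gh κ A + 3 * X.Δ by linarith)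
    have h3 : (finrank L (X.V b A) : ℤ) * (2 * (2 * gh κ A + X.Δ) + X.Δ) =
        (finrank L (X.V b A) : ℤ) * (4 * gh κ A + 3 * X.Δ) := by ring
    rw [h3] at hmain
    linarith
  · have ha0 : gg w.1 A ≠ 0 := (gg_eq_zero w.1).not.2 hA0
    have hexp : (exp (2 * log (gg w.1 A) + (X.δ w : ℤ)) : ℤᵐ⁰) = gg w.1 A ^ 2 * exp (X.δ w : ℤ) := by
      rw [exp_add, show (2 * log (gg w.1 A) : ℤ) = (2 : ℕ) • log (gg w.1 A) by simp, exp_nsmul,
        exp_log ha0]
    simp only [Option.elim_some]
    rw [hexp]
    have ha : 1 ≤ gg w.1 A := one_le_gg hA.one w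
    have he : (1 : ℤᵐ⁰) ≤ exp (X.δ w : ℤ) := by
      rw [← exp_zero, exp_le_exp]
      positivity
    rcases t with ⟨_ | k, i, j⟩
    · refine (le_gg w.1 A i j).trans ?_
      calc gg w.1 A = gg w.1 A * 1 * 1 := by rw [mul_one, mul_one]
        _ ≤ gg w.1 A * gg w.1 A * exp (X.δ w : ℤ) :=
          mul_le_mul' (mul_le_mul' le_rfl ha) he
        _ = gg w.1 A ^ 2 * exp (X.δ w : ℤ) := by rw [sq]
    · exact (le_gg w.1 (X.B A k) i j).trans (X.B_le hA k w)
  · have hv : vmax w.1 X.x ≠ 0 := by
      rw [Ne, vmax_eq_zero_iff]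
      exact X.x_ne_zero
    simp only [Option.elim_none]
    rw [exp_log hv, X.vmax_x w]
    exact le_max_right _ _

end

end Pool.Agent.Lib.MP_44a246_ntX
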