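import Mathlib
import Pool.Agent.Lib.MP_44a246_ntS.SJ5d
import Pool.Agent.Lib.MP_44a246_ntX.XI2
import Pool.Agent.Lib.MP_44a246_ntX.XM1c
import Pool.Agent.Lib.MP_44a246_ntX.XW25
import Pool.Agent.Lib.MP_44a246_ntX.XW26

/-!
# The main height theorem, with the span theorem
-/

namespace Pool.Agent.Lib.MP_44a246_ntX

open Pool.Agent.Lib.MP_44a246_nt
open Pool.Agent.Lib.MP_44a246_ntL
open Pool.Agent.Lib.MP_44a246_ntS
open Pool.Agent.Lib.MP_44a246_ntW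
open Pool.Agent.Lib.MP_e52354_nt
open WithZero Module Polynomial

/-- **Main height theorem** with the span theorem and one ramification term. -/
theorem height_main3 {κ L : Type*} [Field κ] [IsAlgClosed κ] [CharZero κ] [Field L] [CharZero L]
    [Algebra κ L] (h : IsFF κ L) {n d T r : ℕ} (hT : 1 ≤ T) (hT2 : 2000 * T ^ 2 ≤ d)
    (hr : 2500 * (T * (r + 3)) ≤ d) (hNr : 2 * n + 8500 * T ^ 2 + T * (n + 2 + r) ≤ T * d)
    (X : Dat κ (L := L) n d)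
    {τ : Place κ L → ℕ} (hτ : (Function.support τ).Finite)
    (ha : ∀ I ∈ expo (Fin (n + 1)) d, ∀ w : Place κ L, w.1 (X.a I) ≤ exp (τ w : ℤ)) :
    r * height κ X.x ≤ X.R ∨ height κ X.x ≤ 27 * d ^ 2 * (X.Δ + ∑ᶠ w, (τ w : ℤ)) ∨
      Cert d X.a (2 * T) X.x := by
  rcases le_or_gt (r * height κ X.x) X.R with hR | hR
  · exact Or.inl hR
  right
  have hN : 2 * n + 8500 * T ^ 2 + T * (n + 2) ≤ T * d := by
    have : T * (n + 2) ≤ T * (n + 2 + r) := Nat.mul_le_mul_left _ (by omega)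
    omega
  obtain ⟨n1, n2, n3⟩ := numW1 hT hT2 hN
  have hΔ := X.Δ_nonneg
  have hΘ : 0 ≤ ∑ᶠ w, (τ w : ℤ) := finsum_nonneg fun w => Int.natCast_nonneg _
  rcases le_or_gt (height κ X.x) (27 * d ^ 2 * (X.Δ + ∑ᶠ w, (τ w : ℤ))) with hle | hbig
  · exact Or.inl hle
  right
  have hd1 : (8502 : ℤ) ≤ d := by
    have : 8502 ≤ d := by omega
    exact_mod_cast this
  have hTd : (T : ℤ) ≤ d := by
    have : T ≤ d := by omega
    exact_mod_cast this
  have hnd : (n : ℤ) ≤ d := by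
    have : n ≤ d := by omega
    exact_mod_cast this
  have hT1 : (1 : ℤ) ≤ T := by exact_mod_cast hT
  have hd2 : (d : ℤ) ≤ (d : ℤ) ^ 2 := by nlinarith
  have hpos : 0 < height κ X.x :=
    lt_of_le_of_lt (mul_nonneg (by positivity) (add_nonneg hΔ hΘ)) hbig
  have hb1 : 27 * (d : ℤ) ^ 2 * X.Δ < height κ X.x := by
    have : 0 ≤ 27 * (d : ℤ) ^ 2 * ∑ᶠ w, (τ w : ℤ) := mul_nonneg (by positivity) hΘ
    linarith
  -- step A
  have hA := stepA h X (T := T) (S := 850 * T) (r := r) hT (by omega) (by omega) (by nlinarith)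
    hR.le
  rcases hA with hA | ⟨a, P, ha2, hP0, hPh, hPe, hPb⟩
  · exfalso
    have h1 : (n : ℤ) * X.Δ ≤ 27 * (d : ℤ) ^ 2 * X.Δ :=
      mul_le_mul_of_nonneg_right (by nlinarith) hΔ
    linarith
  -- the curve
  have hα0 : 0 ≤ polyHeight κ P := polyHeight_nonneg h hP0
  obtain ⟨-, -, hq⟩ := numX2 hT hT2 hN hr hpos hα0 hPb
  have hbox : Box (2 * T) (deh P) := by
    have h1 := deh_box hPh
    exact ⟨h1.1.trans ha2, fun i => (h1.2 i).trans ha2⟩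
  obtain ⟨A₀, c1, c2, c3, c4, c5, c6, c7, c8⟩ := exists_curve h (deh_ne_zero hPh hP0) hbox
    (y₁ := X.y₁) (y := X.y) (by rw [deh_eval]; exact hPe) (by omega) (by
      rw [gh_deh hPh, X.height_y₁]
      have : (0 : ℤ) < T := by linarith
      rcases hα0.eq_or_lt with h0 | h0
      · rw [← h0, mul_zero]
        exact hpos
      · push_cast at hq ⊢
        nlinarith)
  have hCrv : Crv X (2 * T) A₀ := ⟨c1, c3, c4, c5, c6, c8⟩
  obtain ⟨A, hCA, hgh, hmon⟩ := exists_monic h hCrv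
  have hghle : gh κ A ≤ polyHeight κ P := by
    rw [hgh, ← gh_deh hPh]
    exact c7
  have hgA0 : 0 ≤ gh κ A := gh_nonneg h hCA.irr.ne_zero
  have hgb : 3 * (gh κ A * ((850 * T : ℕ) : ℤ)) ≤ 8 * height κ X.x := by
    have : gh κ A * ((850 * T : ℕ) : ℤ) ≤ polyHeight κ P * ((850 * T : ℕ) : ℤ) :=
      mul_le_mul_of_nonneg_right hghle (by positivity)
    linarith
  obtain ⟨hη, hbez, hsp⟩ := numX2 hT hT2 hN hr hpos hgA0 hgb
  -- step B
  have hTdd : (T : ℤ) * d ≤ (d : ℤ) ^ 2 := by nlinarith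
  have hNN : 4 * ((NN n T : ℕ) : ℤ) * X.Δ ≤ height κ X.x := by
    have h1 : 10 * ((NN n T : ℕ) : ℤ) ≤ 41 * (T * d) := by exact_mod_cast n2
    have h2 : 4 * ((NN n T : ℕ) : ℤ) * X.Δ ≤ 27 * (d : ℤ) ^ 2 * X.Δ :=
      mul_le_mul_of_nonneg_right (by nlinarith) hΔ
    linarith
  have hspan : 9 * ((2 * T : ℕ) : ℤ) * gh κ A + 3 * ((2 * T : ℕ) : ℤ) * X.Δ < height κ X.x := by
    have h1 : 3 * ((2 * T : ℕ) : ℤ) * X.Δ * 4 ≤ 27 * (d : ℤ) ^ 2 * X.Δ := by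
      have : 3 * ((2 * T : ℕ) : ℤ) * 4 ≤ 27 * (d : ℤ) ^ 2 := by push_cast; nlinarith
      calc 3 * ((2 * T : ℕ) : ℤ) * X.Δ * 4 = 3 * ((2 * T : ℕ) : ℤ) * 4 * X.Δ := by ring
        _ ≤ _ := mul_le_mul_of_nonneg_right this hΔ
    linarith
  have hs1 : 1 ≤ d / 8 := by omega
  have hB := stepB_span h X hCA hmon (s := d / 8) (N := NN n T) le_rfl n3 (by omega) hs1 hNN hR.le
    hpos hspan hη hbez
  -- step C
  refine stepC X hCA h hτ ha (by omega) ?_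
  exact numX3 hT hT2 hN hr hpos hΔ hΘ hB (by
    have h3 : 0 ≤ (d : ℤ) ^ 2 * (X.Δ + ∑ᶠ w, (τ w : ℤ)) :=
      mul_nonneg (by positivity) (add_nonneg hΔ hΘ)
    nlinarith)

end Pool.Agent.Lib.MP_44a246_ntX
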