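import Mathlib
import Pool.Agent.Lib.MP_44a246_ntS.SR2b
import Pool.Agent.Lib.MP_44a246_ntS.SR3b
import Pool.Agent.Lib.MP_44a246_ntS.SR3c
import Pool.Agent.Lib.MP_44a246_ntX.XP3
import Pool.Agent.Lib.MP_44a246_ntX.XW27

/-!
The height theorem over the base field, with one ramification term.
-/

namespace Pool.Agent.Lib.MP_44a246_ntX

open Pool.Agent.Lib.MP_44a246_nt
open Pool.Agent.Lib.MP_44a246_ntL
open Pool.Agent.Lib.MP_44a246_ntV
open Pool.Agent.Lib.MP_44a246_ntS
open Pool.Agent.Lib.MP_e52354_nt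
open WithZero

universe u v w

/-- **The height theorem over the base field.** -/
theorem slope_height3 {κ : Type u} {K : Type v} [Field κ] [IsAlgClosed κ] [CharZero κ] [Field K]
    [CharZero K] [Algebra κ K] (hK : IsFF κ K) (htr : Cardinal.aleph0 ≤ Algebra.trdeg ℚ κ)
    {n d T r : ℕ} (hT : 1 ≤ T) (hT2 : 2000 * T ^ 2 ≤ d) (hr : 2500 * (T * (r + 3)) ≤ d)
    (hN : 2 * n + 8500 * T ^ 2 + T * (n + 2 + r) ≤ T * d)
    {a : (Fin (n + 1) →₀ ℕ) → K}
    (ha : AlgebraicIndependent ℚ (fun I : ↥(expo (Fin (n + 1)) d) => a I.1)) :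
    ∃ C : ℕ, ∀ (L : Type w) [Field L] [Algebra K L] [FiniteDimensional K L] [Algebra κ L]
      [IsScalarTower κ K L] (x : Fin (n + 1) → L), x ≠ 0 →
      Fval d (fun I => algebraMap K L (a I)) x = 0 →
      r * height κ x ≤ ramDeg κ L K ∨ height κ x ≤ C * Module.finrank K L ∨
        Cert d (fun I => algebraMap K L (a I)) (2 * T) x := by
  obtain ⟨X, rfl⟩ := exists_base hK htr ha
  refine ⟨27 * d ^ 2 * ((∑ᶠ v, X.B v) + ∑ᶠ v, X.A v), ?_⟩
  intro L _ _ _ _ _ x hx hF
  have hL : IsFF κ L := hK.of_finite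
  have hchar : CharZero L := charZero_of_injective_algebraMap (algebraMap K L).injective
  obtain ⟨Y, c, hc, hYa, hYx, hYδ, hYρ⟩ := exists_dat X hK hx hF
  obtain ⟨hA1, hA2⟩ := mason_sum_over hL X.hA
  obtain ⟨hB1, hB2⟩ := mason_sum_over hL X.hB
  have hτ : (Function.support fun w : Place κ L => ramIdx K w.1 * X.A (below K w)).Finite := by
    refine hA1.subset fun w hw h0 => hw ?_
    exact Int.natCast_eq_zero.1 h0
  have hmain := height_main3 hL hT hT2 hr hN Y hτ (fun I hI w => by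
    rw [hYa]
    exact coef_le X.A (X.ha I hI) w)
  have h1 : height κ Y.x = height κ x := by
    rw [hYx]
    exact hL.height_smul hc
  have h2 : Y.Δ = ((∑ᶠ v, X.B v : ℕ) : ℤ) * Module.finrank K L := by
    unfold Dat.Δ
    rw [hYδ, ← hB2]
  have h3 : Y.R = ramDeg κ L K := by
    unfold Dat.R
    rw [hYρ]
    exact (mason_sum_ram (K := K) hL).2
  rcases hmain with h | h | h
  · left
    rwa [h1, h3] at h
  · right; left
    rw [h1, h2, hA2] at h
    refine h.trans (le_of_eq ?_)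
    push_cast
    ring
  · right; right
    rw [hYa, hYx] at h
    exact Cert.smul hc h

end Pool.Agent.Lib.MP_44a246_ntX
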