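import Mathlib

/-!
The choice of the parameter `T`.
-/

namespace Pool.Agent.Lib.MP_44a246_ntX

/-- the choice of the parameter `T` -/
theorem exists_T {n d r : ℕ} (h : n + 20001 * (Nat.sqrt n + r + 4) ≤ d) :
    ∃ T, 1 ≤ T ∧ T ≤ Nat.sqrt n + 1 ∧ 2000 * T ^ 2 ≤ d ∧ 2500 * (T * (r + 3)) ≤ d ∧
      2 * n + 8500 * T ^ 2 + T * (n + 2 + r) ≤ T * d := by
  have hm1 : n < (Nat.sqrt n + 1) * (Nat.sqrt n + 1) := Nat.lt_succ_sqrt n
  have hm2 : Nat.sqrt n * Nat.sqrt n ≤ n := Nat.sqrt_le n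
  generalize Nat.sqrt n = m at h hm1 hm2 ⊢
  obtain ⟨D, hD⟩ : ∃ D, d = n + 2 + r + D := Nat.exists_eq_add_of_le (by linarith)
  have hD1 : 20000 * (m + r + 4) ≤ D := by linarith
  have hD0 : 0 < D := by linarith
  set t := 4 * n / D with ht
  have h1 : 4 * n < D * (t + 1) := Nat.lt_mul_div_succ (4 * n) hD0
  have h2 : D * t ≤ 4 * n := Nat.mul_div_le (4 * n) D
  have h3 : 5000 * t ≤ m + 1 := by
    have h4 : (20000 * (m + 1)) * t ≤ 4 * ((m + 1) * (m + 1)) := by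
      calc (20000 * (m + 1)) * t ≤ D * t := Nat.mul_le_mul_right _ (by linarith)
        _ ≤ 4 * n := h2
        _ ≤ 4 * ((m + 1) * (m + 1)) := by linarith
    have h5 : (m + 1) * (5000 * t) ≤ (m + 1) * (m + 1) := by nlinarith
    exact Nat.le_of_mul_le_mul_left h5 (by linarith)
  have h4 : 5000 * (t * (r + 3)) ≤ n := by
    have h5 : (20000 * (r + 3)) * t ≤ 4 * n := by
      calc (20000 * (r + 3)) * t ≤ D * t := Nat.mul_le_mul_right _ (by linarith)
        _ ≤ 4 * n := h2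
    nlinarith
  refine ⟨t + 1, by linarith, by linarith, ?_, ?_, ?_⟩
  · have h5 : (5000 * (t + 1)) * (5000 * (t + 1)) ≤ (m + 5001) * (m + 5001) :=
      Nat.mul_le_mul (by linarith) (by linarith)
    nlinarith
  · have h5 : (t + 1) * (r + 3) = t * (r + 3) + (r + 3) := by ring
    linarith
  · have h5 : 17000 * (t + 1) ≤ D := by linarith
    have h6 : 17000 * (t + 1) * (t + 1) ≤ D * (t + 1) := Nat.mul_le_mul_right _ h5
    rw [hD]
    nlinarith

end Pool.Agent.Lib.MP_44a246_ntX
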