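import Mathlib
import Pool.Agent.Lib.MP_44a246_ntS.SV2
import Pool.Agent.Lib.MP_44a246_ntX.XR2
import Pool.Agent.Lib.MP_44a246_ntX.XR3

/-!
The theorem for forms over a function field.
-/

namespace Pool.Agent.Lib.MP_44a246_ntX

open Pool.Agent.Lib.MP_44a246_nt
open Pool.Agent.Lib.MP_44a246_ntL
open Pool.Agent.Lib.MP_44a246_ntS
open Pool.Agent.Lib.MP_e52354_nt
open MvPolynomial

universe u v w

theorem Cert.mono {L : Type*} [Field L] {n d b b' : ℕ} (hb : b ≤ b')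
    {a : (Fin (n + 1) →₀ ℕ) → L} {x : Fin (n + 1) → L} (h : Cert d a b x) : Cert d a b' x := by
  obtain ⟨A, B, ξ₀, ξ₁, ξ₂, c', y₁, y, h1, h2, h3⟩ := h
  exact ⟨A, B, ξ₀, ξ₁, ξ₂, c', y₁, y, ⟨h1.1.trans hb, fun i => (h1.2 i).trans hb⟩,
    fun j => ⟨(h2 j).1.trans hb, fun i => ((h2 j).2 i).trans hb⟩, h3⟩

/-- **The slope theorem.** -/
theorem slope_main3 {κ : Type u} {K : Type v} [Field κ] [IsAlgClosed κ] [CharZero κ] [Field K]
    [CharZero K] [Algebra κ K] (htr : Cardinal.aleph0 ≤ Algebra.trdeg ℚ κ)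
    {t : K} (ht : Transcendental κ t) [FiniteDimensional (IntermediateField.adjoin κ {t}) K]
    {n d r : ℕ} (hn : 2 ≤ n) (hd : n + 20001 * (Nat.sqrt n + r + 4) ≤ d)
    (F : MvPolynomial (Fin (n + 1)) K) (hF : F.IsHomogeneous d)
    (hgen : AlgebraicIndependent ℚ
      (fun I : {I : Fin (n + 1) →₀ ℕ // I.degree = d} => F.coeff I.1)) :
    ∃ G : MvPolynomial (Fin (n + 1)) K, (∃ e, G.IsHomogeneous e) ∧
      (∃ z : Fin (n + 1) → AlgebraicClosure K, z ≠ 0 ∧ aeval z F = 0 ∧ aeval z G ≠ 0) ∧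
      ∃ C : ℕ, ∀ (L : Type w) [Field L] [Algebra K L] [FiniteDimensional K L] [Algebra κ L]
        [IsScalarTower κ K L] (x : Fin (n + 1) → L), x ≠ 0 → aeval x F = 0 →
        ((r * height κ x ≤ ramDeg κ L K ∨ height κ x ≤ C * Module.finrank K L) ∧
          (pointField K x = ⊤ → 2 * Module.finrank K L ≤ r + 1 →
            height κ x ≤ C * Module.finrank K L)) ∨
          aeval x G = 0 ∧
            Cert d (fun I => algebraMap K L (F.coeff I)) (2 * (Nat.sqrt n + 1)) x := by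
  obtain ⟨T, hT, hTn, hT2, hr, hN⟩ := exists_T hd
  have hd2 : n + 2 * (2 * (Nat.sqrt n + 1)) ≤ d ∧ 1 ≤ d := by
    constructor <;> linarith
  have ha : AlgebraicIndependent ℚ (fun I : ↥(expo (Fin (n + 1)) d) => F.coeff I.1) := by
    have h1 : (fun I : ↥(expo (Fin (n + 1)) d) => F.coeff I.1) =
        (fun I : {I : Fin (n + 1) →₀ ℕ // I.degree = d} => F.coeff I.1) ∘
        (fun I : ↥(expo (Fin (n + 1)) d) => ⟨I.1, mem_expo.mp I.2⟩) := rfl
    rw [h1]
    apply hgen.comp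
    rintro ⟨I, h⟩ ⟨I', h'⟩ heq
    simp only [Subtype.mk.injEq] at heq
    subst heq
    rfl
  have hK : IsFF κ K := ⟨t, ht, inferInstance⟩
  obtain ⟨G, hG1, hG2, hG3⟩ := exists_excForm.{v, w} hn hd2.1 hd2.2 hF ha
  obtain ⟨C, hC⟩ := slope_height3.{u, v, w} (κ := κ) (K := K) hK htr hT hT2 hr hN
    (a := fun I => F.coeff I) ha
  refine ⟨G, hG1, hG2, C, ?_⟩
  intro L _ _ _ _ _ x hx hFx
  rw [aeval_eq_Fval F hF] at hFx
  have hL : IsFF κ L := hK.of_finite
  have hH : 0 ≤ height κ x := hL.height_nonneg hx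
  have key := hC L x hx hFx
  rcases key with h | h | h
  · left
    refine ⟨Or.inl h, fun hgx h2 => ?_⟩
    have h3 : (ramDeg κ L K : ℤ) ≤ 2 * ((Module.finrank K L : ℤ) - 1) * height κ x := by
      refine hK.ind ?_
      intro _ _ _ _ _ _ _ _ _
      exact (ram_point (κ := κ) (K := K) x hx hgx).1
    have h4 : 2 * (Module.finrank K L : ℤ) ≤ r + 1 := by exact_mod_cast h2
    have h5 : height κ x ≤ 0 := by nlinarith
    exact h5.trans (by positivity)
  · exact Or.inl ⟨Or.inr h, fun _ _ => h⟩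
  · right
    have h1 : Cert d (fun I => algebraMap K L (F.coeff I)) (2 * (Nat.sqrt n + 1)) x :=
      Cert.mono (by omega) h
    exact ⟨hG3 L x h1, h1⟩

end Pool.Agent.Lib.MP_44a246_ntX
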